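import Mathlib

/-!
# Closed commensurated subgroups of locally compact groups almost commute with compacts
-/

set_option autoImplicit false

open scoped Pointwise Topology

namespace Pool.Agent.Results.MP_5bfb0a_al.AlwaysAlmostCommutes

universe u

variable {Γ : Type u} [Group Γ]

/-- `Λ` is commensurated in `Γ`: for every `g ∈ Γ` the index `[Λ : Λ ∩ gΛg⁻¹]` is finite
(`relIndex` is `0` when the index is infinite). -/
def Commensurated (Λ : Subgroup Γ) : Prop :=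
  ∀ g : Γ, (Λ ⊓ Λ.map (MulAut.conj g).toMonoidHom).relIndex Λ ≠ 0

/-- `Λ` almost commutes with compacts: for each compact set `C` some compact set `C'` satisfies
`C Λ ⊆ Λ C'` and `Λ C ⊆ C' Λ`. -/
def AlmostCommutes [TopologicalSpace Γ] (Λ : Subgroup Γ) : Prop :=
  ∀ C : Set Γ, IsCompact C → ∃ C' : Set Γ, IsCompact C' ∧
    C * (Λ : Set Γ) ⊆ (Λ : Set Γ) * C' ∧ (Λ : Set Γ) * C ⊆ C' * (Λ : Set Γ)

/-- `g Λ` is contained in finitely many right cosets of `Λ`. -/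
theorem fin_cosets {Λ : Subgroup Γ} (h : Commensurated Λ) (g : Γ) :
    ∃ F : Set Γ, F.Finite ∧ ∀ x ∈ Λ, g * x ∈ (Λ : Set Γ) * F := by
  have hg := h g⁻¹
  set H : Subgroup Λ := (Λ ⊓ Λ.map (MulAut.conj g⁻¹).toMonoidHom).subgroupOf Λ with hH
  have hidx : H.index ≠ 0 := hg
  have : H.FiniteIndex := ⟨hidx⟩
  have hfin : Finite (Λ ⧸ H) := Subgroup.finite_quotient_of_finiteIndex
  refine ⟨Set.range (fun q : Λ ⧸ H => g * ((q.out : Λ) : Γ)⁻¹), Set.finite_range _, ?_⟩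
  intro x hx
  let y : Λ := ⟨x, hx⟩
  let q : Λ ⧸ H := QuotientGroup.mk y⁻¹
  have hq : (q.out)⁻¹ * y⁻¹ ∈ H := by
    rw [← QuotientGroup.eq]
    exact QuotientGroup.out_eq' q
  obtain ⟨-, z, hz, hz2⟩ := Subgroup.mem_subgroupOf.1 hq
  simp only [MulEquiv.coe_toMonoidHom, MulAut.conj_apply, inv_inv, Subgroup.coe_mul,
    Subgroup.coe_inv] at hz2
  refine Set.mem_mul.2 ⟨z⁻¹, Λ.inv_mem hz, _, ⟨q, rfl⟩, ?_⟩
  have h1 : z = g * ((q.out : Λ) : Γ)⁻¹ * x⁻¹ * g⁻¹ := by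
    have : z = g * (g⁻¹ * z * g) * g⁻¹ := by group
    rw [this, hz2]
    group
    rfl
  rw [h1]
  group

/-- A set contained in `Λ C'` for a compact set `C'`. -/
def Bdd [TopologicalSpace Γ] (Λ : Subgroup Γ) (S : Set Γ) : Prop :=
  ∃ C' : Set Γ, IsCompact C' ∧ S ⊆ (Λ : Set Γ) * C'

variable [TopologicalSpace Γ] [IsTopologicalGroup Γ]

theorem Bdd.translate {Λ : Subgroup Γ} (h : Commensurated Λ) {S : Set Γ} (hS : Bdd Λ S) (g : Γ) :
    Bdd Λ ({g} * S) := by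
  obtain ⟨C', hC', hSC⟩ := hS
  obtain ⟨F, hF, hF2⟩ := fin_cosets h g
  refine ⟨F * C', hF.isCompact.mul hC', ?_⟩
  rintro _ ⟨g', hg', s, hs, rfl⟩
  rw [Set.mem_singleton_iff] at hg'
  subst hg'
  obtain ⟨x, hx, c, hc, rfl⟩ := hSC hs
  obtain ⟨y, hy, f, hf, hyf⟩ := hF2 x hx
  refine ⟨y, hy, f * c, ⟨f, hf, c, hc, rfl⟩, ?_⟩
  change y * (f * c) = g' * (x * c)
  rw [← mul_assoc, ← mul_assoc]
  congr 1

theorem Bdd.biUnion {ι : Type u} {Λ : Subgroup Γ} {S : ι → Set Γ} {I : Set ι} (hI : I.Finite)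
    (hS : ∀ i ∈ I, Bdd Λ (S i)) : Bdd Λ (⋃ i ∈ I, S i) := by
  choose! C hC hSC using hS
  refine ⟨⋃ i ∈ I, C i, hI.isCompact_biUnion hC, ?_⟩
  intro x hx
  simp only [Set.mem_iUnion] at hx
  obtain ⟨i, hi, hx⟩ := hx
  obtain ⟨y, hy, c, hc, rfl⟩ := hSC i hi hx
  exact ⟨y, hy, c, Set.mem_biUnion hi hc, rfl⟩

variable [LocallyCompactSpace Γ] [T2Space Γ]

/-- Baire category step: for a sequence in `Λ` there is a nonempty open set `W` such that `W D` is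
bounded modulo `Λ`. -/
theorem exists_open {Λ : Subgroup Γ} (hΛ : IsClosed (Λ : Set Γ)) (h : Commensurated Λ)
    (d : ℕ → Γ) (hd : ∀ n, d n ∈ Λ) :
    ∃ W : Set Γ, IsOpen W ∧ W.Nonempty ∧ Bdd Λ (W * Set.range d) := by
  obtain ⟨K, hK, hK1⟩ := exists_compact_mem_nhds (1 : Γ)
  have h1 : (1 : Γ) ∈ interior K := mem_interior_iff_mem_nhds.2 hK1
  let U : Set Γ := interior K
  have hUo : IsOpen U := isOpen_interior
  have : LocallyCompactSpace U := hUo.locallyCompactSpace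
  have : Nonempty U := ⟨⟨1, h1⟩⟩
  let Kn : ℕ → Set Γ := fun n => ⋃ j ∈ Set.Iic n, K * {d j}
  have hKn : ∀ n, IsCompact (Kn n) := fun n =>
    (Set.finite_Iic n).isCompact_biUnion fun j _ => hK.mul isCompact_singleton
  let E : ℕ → Set U := fun n => {g | ∀ j, (g : Γ) * d j ∈ (Λ : Set Γ) * Kn n}
  have hE : ∀ n, IsClosed (E n) := by
    intro n
    have : E n = ⋂ j, {g : U | (g : Γ) * d j ∈ (Λ : Set Γ) * Kn n} := by
      ext g; simp [E]
    rw [this]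
    refine isClosed_iInter fun j => ?_
    have hcl : IsClosed ((Λ : Set Γ) * Kn n) := hΛ.mul_right_of_isCompact (hKn n)
    exact hcl.preimage (continuous_subtype_val.mul continuous_const)
  have hcov : ⋃ n, E n = Set.univ := by
    rw [Set.eq_univ_iff_forall]
    intro g
    obtain ⟨F, hF, hF2⟩ := fin_cosets h (g : Γ)
    -- for every `f ∈ F` hit by the sequence choose an index
    have hsel : ∀ f : Γ, ∃ n : ℕ, ∀ j, (g : Γ) * d j ∈ (Λ : Set Γ) * {f} →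
        (g : Γ) * d n ∈ (Λ : Set Γ) * {f} := by
      intro f
      by_cases hf : ∃ n, (g : Γ) * d n ∈ (Λ : Set Γ) * {f}
      · obtain ⟨n, hn⟩ := hf
        exact ⟨n, fun _ _ => hn⟩
      · push Not at hf
        exact ⟨0, fun j hj => absurd hj (hf j)⟩
    choose sel hsel using hsel
    obtain ⟨N, hN⟩ := (hF.image sel).bddAbove
    rw [Set.mem_iUnion]
    refine ⟨N, fun j => ?_⟩
    obtain ⟨y, hy, f, hf, hyf⟩ := hF2 (d j) (hd j)
    have h2 : (g : Γ) * d j ∈ (Λ : Set Γ) * {f} := ⟨y, hy, f, rfl, hyf⟩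
    obtain ⟨y', hy', f', hf', hyf'⟩ := hsel f j h2
    rw [Set.mem_singleton_iff] at hf'
    subst hf'
    have hle : sel f' ≤ N := hN ⟨f', hf, rfl⟩
    refine ⟨y * y'⁻¹, Λ.mul_mem hy (Λ.inv_mem hy'), (g : Γ) * d (sel f'), ?_, ?_⟩
    · refine Set.mem_biUnion (Set.mem_Iic.2 hle) ?_
      exact ⟨g, interior_subset g.2, d (sel f'), rfl, rfl⟩
    · change y * y'⁻¹ * ((g : Γ) * d (sel f')) = (g : Γ) * d j
      change y' * f' = (g : Γ) * d (sel f') at hyf'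
      change y * f' = (g : Γ) * d j at hyf
      rw [← hyf', ← hyf]
      group
  obtain ⟨n, hn⟩ := nonempty_interior_of_iUnion_of_closed hE hcov
  refine ⟨Subtype.val '' interior (E n), hUo.isOpenMap_subtype_val _ isOpen_interior,
    hn.image _, Kn n, hKn n, ?_⟩
  rintro _ ⟨_, ⟨g, hg, rfl⟩, _, ⟨j, rfl⟩, rfl⟩
  exact interior_subset hg j

theorem bdd_mul_range {Λ : Subgroup Γ} (hΛ : IsClosed (Λ : Set Γ)) (h : Commensurated Λ)
    (d : ℕ → Γ) (hd : ∀ n, d n ∈ Λ) (C : Set Γ) (hC : IsCompact C) :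
    Bdd Λ (C * Set.range d) := by
  obtain ⟨W, hW, ⟨w, hw⟩, hWd⟩ := exists_open hΛ h d hd
  obtain ⟨t, ht⟩ := hC.elim_finite_subcover (fun c : Γ => (fun x => w * c⁻¹ * x) ⁻¹' W)
    (fun c => hW.preimage (continuous_const.mul continuous_id))
    (by
      intro c _
      rw [Set.mem_iUnion]
      exact ⟨c, by simpa using hw⟩)
  have h1 : Bdd Λ (⋃ c ∈ (t : Set Γ), {c * w⁻¹} * (W * Set.range d)) :=
    Bdd.biUnion t.finite_toSet fun c _ => hWd.translate h _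
  obtain ⟨C', hC', hsub⟩ := h1
  refine ⟨C', hC', fun x hx => hsub ?_⟩
  obtain ⟨c, hc, y, hy, rfl⟩ := hx
  have := ht hc
  simp only [Set.mem_iUnion] at this
  obtain ⟨c₀, hc₀, hcW⟩ := this
  refine Set.mem_biUnion (Finset.mem_coe.2 hc₀) ?_
  refine ⟨c₀ * w⁻¹, rfl, (w * c₀⁻¹ * c) * y, ⟨_, hcW, y, hy, rfl⟩, ?_⟩
  change c₀ * w⁻¹ * (w * c₀⁻¹ * c * y) = c * y
  group

/-- A set all whose sequences are bounded modulo `Λ` is bounded modulo `Λ`. -/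
theorem bdd_of_seq {Λ : Subgroup Γ} (S : Set Γ)
    (hS : ∀ s : ℕ → Γ, (∀ n, s n ∈ S) → Bdd Λ (Set.range s)) : Bdd Λ S := by
  by_contra hcon
  obtain ⟨K, hK, hK1⟩ := exists_compact_mem_nhds (1 : Γ)
  let R : Γ → Γ → Prop := fun x y => y ∉ (Λ : Set Γ) * ({x} * (K⁻¹ * K))
  have hstep : ∀ T : Finset Γ, (∀ x ∈ T, x ∈ S) →
      ∃ y, y ∈ S ∧ ∀ x ∈ T, R x y := by
    intro T _
    by_contra hno
    push Not at hno
    apply hcon
    refine ⟨⋃ x ∈ (T : Set Γ), {x} * (K⁻¹ * K), T.finite_toSet.isCompact_biUnion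
      fun x _ => isCompact_singleton.mul (hK.inv.mul hK), ?_⟩
    intro y hy
    obtain ⟨x, hx, hR⟩ := hno y hy
    obtain ⟨l, hl, c, hc, rfl⟩ := not_not.1 hR
    exact ⟨l, hl, c, Set.mem_biUnion (Finset.mem_coe.2 hx) hc, rfl⟩
  obtain ⟨s, hsS, hs⟩ := exists_seq_of_forall_finset_exists (fun x => x ∈ S)
    R hstep
  obtain ⟨C', hC', hsC⟩ := hS s hsS
  obtain ⟨t, ht⟩ := hC'.elim_finite_subcover (fun c : Γ => (fun x => c⁻¹ * x) ⁻¹' interior K)
    (fun c => isOpen_interior.preimage (continuous_const.mul continuous_id))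
    (by
      intro c _
      rw [Set.mem_iUnion]
      refine ⟨c, ?_⟩
      simpa using mem_interior_iff_mem_nhds.2 hK1)
  have hidx : ∀ n : ℕ, ∃ c ∈ t, s n ∈ (Λ : Set Γ) * ({c} * K) := by
    intro n
    obtain ⟨l, hl, c', hc', hlc⟩ := hsC ⟨n, rfl⟩
    have := ht hc'
    simp only [Set.mem_iUnion] at this
    obtain ⟨c, hc, hcK⟩ := this
    refine ⟨c, hc, l, hl, c', ⟨c, rfl, c⁻¹ * c', interior_subset hcK, ?_⟩, hlc⟩
    change c * (c⁻¹ * c') = c'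
    group
  choose f hft hf using hidx
  obtain ⟨m, n, hmn, hfmn⟩ : ∃ m n : ℕ, m < n ∧ f m = f n := by
    have hni : ¬ Function.Injective (fun n : ℕ => (⟨f n, hft n⟩ : t)) := not_injective_infinite_finite _
    rw [Function.Injective] at hni
    push Not at hni
    obtain ⟨m, n, hmn, hne⟩ := hni
    have hmn' : f m = f n := congrArg Subtype.val hmn
    rcases lt_or_gt_of_ne hne with hlt | hlt
    · exact ⟨m, n, hlt, hmn'⟩
    · exact ⟨n, m, hlt, hmn'.symm⟩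
  apply hs m n hmn
  obtain ⟨l, hl, x, ⟨c, hc, k, hk, hx⟩, hm⟩ := hf m
  obtain ⟨l', hl', x', ⟨c', hc', k', hk', hx'⟩, hn⟩ := hf n
  rw [Set.mem_singleton_iff] at hc hc'
  subst hc hc'
  change f m * k = x at hx
  change f n * k' = x' at hx'
  subst hx hx'
  change l * (f m * k) = s m at hm
  change l' * (f n * k') = s n at hn
  refine ⟨l' * l⁻¹, Λ.mul_mem hl' (Λ.inv_mem hl), s m * (k⁻¹ * k'),
    ⟨s m, rfl, k⁻¹ * k', ⟨k⁻¹, Set.inv_mem_inv.2 hk, k', hk', rfl⟩, rfl⟩, ?_⟩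
  change l' * l⁻¹ * (s m * (k⁻¹ * k')) = s n
  rw [← hm, ← hn, ← hfmn]
  group

/-- In a locally compact Hausdorff group every closed commensurated subgroup almost commutes with
compacts. -/
theorem result (Γ : Type u) [Group Γ] [TopologicalSpace Γ] [IsTopologicalGroup Γ]
    [LocallyCompactSpace Γ] [T2Space Γ] (Λ : Subgroup Γ) (hΛ : IsClosed (Λ : Set Γ))
    (h : Commensurated Λ) : AlmostCommutes Λ := by
  have hone : ∀ C : Set Γ, IsCompact C → Bdd Λ (C * (Λ : Set Γ)) := by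
    intro C hC
    apply bdd_of_seq
    intro s hs
    choose c hc d hd hcd using hs
    obtain ⟨C', hC', hsub⟩ := bdd_mul_range hΛ h d hd C hC
    refine ⟨C', hC', ?_⟩
    rintro _ ⟨n, rfl⟩
    exact hsub ⟨c n, hc n, d n, ⟨n, rfl⟩, hcd n⟩
  intro C hC
  obtain ⟨C₁, hC₁, h₁⟩ := hone C hC
  obtain ⟨C₂, hC₂, h₂⟩ := hone C⁻¹ hC.inv
  refine ⟨C₁ ∪ C₂⁻¹, hC₁.union hC₂.inv, ?_, ?_⟩
  · exact h₁.trans (Set.mul_subset_mul_left Set.subset_union_left)
  · rintro _ ⟨l, hl, c, hc, rfl⟩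
    have h3 : c⁻¹ * l⁻¹ ∈ C⁻¹ * (Λ : Set Γ) :=
      ⟨c⁻¹, Set.inv_mem_inv.2 hc, l⁻¹, Λ.inv_mem hl, rfl⟩
    obtain ⟨l', hl', c', hc', he⟩ := h₂ h3
    refine ⟨c'⁻¹, Or.inr (Set.inv_mem_inv.2 hc'), l'⁻¹, Λ.inv_mem hl', ?_⟩
    change c'⁻¹ * l'⁻¹ = l * c
    change l' * c' = c⁻¹ * l⁻¹ at he
    rw [← mul_inv_rev, he]
    group

end Pool.Agent.Results.MP_5bfb0a_al.AlwaysAlmostCommutes
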